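import Pool.Agent.helper38.OP.Spec
import Pool.Agent.helper93.OM.CUT

/-! # Row op:CU2 (MP_bf63dc_nt): the cut norm for long averages -/

set_option autoImplicit false

namespace Pool.Agent.OP

open Finset Real Pool.Agent.AT Pool.Agent.helper85.FC Pool.Agent.OM

theorem CU2_PQ (M : ℕ) (T : ℕ → ℕ) (B : ℕ → ℤ → ℝ) (hB : ∀ m v, 0 ≤ B m v ∧ B m v ≤ 1) (m : ℕ) (v : ℤ) :
    0 ≤ PQ M T B m v ∧ PQ M T B m v ≤ 1 := by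
  unfold PQ sm
  constructor
  · exact div_nonneg (Finset.sum_nonneg fun τ _ => (hB m _).1) (Nat.cast_nonneg _)
  · rcases Nat.eq_zero_or_pos (T m) with h | h
    · rw [h]
      simp
    · rw [div_le_one (by exact_mod_cast h)]
      refine (Finset.sum_le_sum fun τ _ => (hB m _).2).trans ?_
      rw [Finset.sum_const, Finset.card_range, nsmul_eq_mul, mul_one]

theorem CU2_MM1 (a b L : ℕ) (ha : 1 ≤ a) (hab : a < b) : 1 ≤ MM1 a b L := by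
  unfold MM1
  apply Nat.mul_pos (Nat.pow_pos ha)
  apply Finset.prod_pos
  intro k hk
  rw [Finset.mem_Ico] at hk
  rw [Int.natAbs_pos]
  have h1 : a ^ k < b ^ k := Nat.pow_lt_pow_left hab (by omega)
  have h2 : (a : ℤ) ^ k < (b : ℤ) ^ k := by exact_mod_cast h1
  exact sub_ne_zero.2 h2.ne

theorem CU2_num (a b L : ℕ) (κ : ℝ) (hL : 1 ≤ L) (hκ : 0 < κ) (hκ1 : κ ≤ 1)
    (h : 64 * a * √(L : ℝ) ≤ κ ^ 2 * b) : 64 * (a : ℝ) ≤ κ ^ 2 * b ∧ 64 * a ≤ b := by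
  have hs : (1 : ℝ) ≤ √(L : ℝ) := by
    rw [Real.one_le_sqrt]
    exact_mod_cast hL
  have ha0 : (0 : ℝ) ≤ a := Nat.cast_nonneg a
  have h1 : 64 * (a : ℝ) ≤ κ ^ 2 * b := by
    refine le_trans ?_ h
    nlinarith
  refine ⟨h1, ?_⟩
  have hb0 : (0 : ℝ) ≤ b := Nat.cast_nonneg b
  have h2 : κ ^ 2 ≤ 1 := pow_le_one₀ hκ.le hκ1
  have h3 : 64 * (a : ℝ) ≤ b := by nlinarith
  exact_mod_cast h3

theorem CU2_par (a b L : ℕ) (κ : ℝ) (ha : 1 ≤ a) (hL : 1 ≤ L) (hκ : 0 < κ) (hκ1 : κ ≤ 1)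
    (h : 64 * a * √(L : ℝ) ≤ κ ^ 2 * b) (Y : ℕ) (hY : MM1 a b L * b ^ L ≤ Y) (m t : ℕ) (hm : m ∈ Ico 1 L)
    (ht : κ * ((b : ℝ) ^ L * MM1 a b L * t) ≤ (a : ℝ) ^ m * Y) :
    ∃ t' : ℕ, 1 ≤ t' ∧ MM1 a b L * t' ≤ Y ∧ (b : ℝ) ^ (L - m) * t ≤ κ * t' ∧
      κ ^ 2 * (MM1 a b L * (b : ℝ) ^ m * t') ≤ 2 * ((a : ℝ) ^ m * Y) := by
  obtain ⟨h1, h2⟩ := CU2_num a b L κ hL hκ hκ1 h
  have hab : a < b := by omega
  have hM := CU2_MM1 a b L ha hab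
  rw [Finset.mem_Ico] at hm
  have hM0 : (1 : ℝ) ≤ MM1 a b L := by exact_mod_cast hM
  have hb1 : 64 ≤ b := by omega
  have hbL : (64 : ℝ) ≤ (b : ℝ) ^ L := by
    have : b ^ 1 ≤ b ^ L := Nat.pow_le_pow_right (by omega) hL
    have h3 : 64 ≤ b ^ L := by
      rw [pow_one] at this
      omega
    exact_mod_cast h3
  have hY1 : (MM1 a b L : ℝ) * (b : ℝ) ^ L ≤ Y := by exact_mod_cast hY
  have hY0 : (64 : ℝ) ≤ Y := by nlinarith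
  have ha1 : (1 : ℝ) ≤ a := by exact_mod_cast ha
  have ham : (1 : ℝ) ≤ (a : ℝ) ^ m := one_le_pow₀ ha1
  have hb0 : (1 : ℝ) ≤ b := by
    have : 1 ≤ b := by omega
    exact_mod_cast this
  have hbm : (1 : ℝ) ≤ (b : ℝ) ^ m := one_le_pow₀ hb0
  have hbmL : (b : ℝ) ^ m ≤ (b : ℝ) ^ L := pow_le_pow_right₀ hb0 (by omega)
  have hκ2 : κ ^ 2 ≤ 1 := pow_le_one₀ hκ.le hκ1
  have hκ0 : 0 < κ ^ 2 := by positivity
  -- `64 a^m ≤ κ² b^m`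
  have h5 : 64 * (a : ℝ) ^ m ≤ κ ^ 2 * (b : ℝ) ^ m := by
    obtain ⟨n, rfl⟩ : ∃ n, m = n + 1 := ⟨m - 1, by omega⟩
    have h6 : (a : ℝ) ^ n ≤ (b : ℝ) ^ n := pow_le_pow_left₀ (by linarith) (by exact_mod_cast hab.le) n
    have h7 : (0 : ℝ) ≤ (a : ℝ) ^ n := by positivity
    calc 64 * (a : ℝ) ^ (n + 1) = (64 * a) * (a : ℝ) ^ n := by ring
      _ ≤ (κ ^ 2 * b) * (a : ℝ) ^ n := by apply mul_le_mul_of_nonneg_right h1 h7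
      _ ≤ (κ ^ 2 * b) * (b : ℝ) ^ n := by apply mul_le_mul_of_nonneg_left h6 (by positivity)
      _ = κ ^ 2 * (b : ℝ) ^ (n + 1) := by ring
  set w : ℝ := (a : ℝ) ^ m * Y / (κ ^ 2 * (MM1 a b L * (b : ℝ) ^ m)) with hw
  have hD : 0 < κ ^ 2 * ((MM1 a b L : ℝ) * (b : ℝ) ^ m) := by positivity
  have hwe : w * (κ ^ 2 * ((MM1 a b L : ℝ) * (b : ℝ) ^ m)) = (a : ℝ) ^ m * Y := by
    rw [hw]
    field_simp
  have hw0 : 0 < w := by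
    rw [hw]
    apply div_pos _ hD
    nlinarith
  have hc1 : w ≤ (⌈w⌉₊ : ℝ) := Nat.le_ceil w
  have hc2 : (⌈w⌉₊ : ℝ) < w + 1 := Nat.ceil_lt_add_one hw0.le
  refine ⟨⌈w⌉₊, Nat.ceil_pos.2 hw0, ?_, ?_, ?_⟩
  · -- `M₁ t' ≤ Y`
    have h8 : (MM1 a b L : ℝ) * w ≤ Y / 64 := by
      have h9 : (MM1 a b L : ℝ) * w * (κ ^ 2 * (b : ℝ) ^ m) = (a : ℝ) ^ m * Y := by
        rw [← hwe]; ring
      have h10 : (a : ℝ) ^ m * Y ≤ Y / 64 * (κ ^ 2 * (b : ℝ) ^ m) := by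
        have : 64 * (a : ℝ) ^ m * Y ≤ κ ^ 2 * (b : ℝ) ^ m * Y := mul_le_mul_of_nonneg_right h5 (by linarith)
        linarith
      have h11 : 0 < κ ^ 2 * (b : ℝ) ^ m := by positivity
      exact le_of_mul_le_mul_right (h9.le.trans h10) h11
    have h12 : (MM1 a b L : ℝ) ≤ Y / 64 := by
      have : (MM1 a b L : ℝ) * 64 ≤ MM1 a b L * (b : ℝ) ^ L := mul_le_mul_of_nonneg_left hbL (by linarith)
      linarith
    have h13 : (MM1 a b L : ℝ) * (⌈w⌉₊ : ℝ) ≤ MM1 a b L * (w + 1) :=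
      mul_le_mul_of_nonneg_left hc2.le (by linarith)
    have h14 : (MM1 a b L : ℝ) * (⌈w⌉₊ : ℝ) ≤ Y := by
      rw [mul_add, mul_one] at h13
      linarith
    exact_mod_cast h14
  · -- `b^(L-m) t ≤ κ t'`
    have h8 : (b : ℝ) ^ L = (b : ℝ) ^ (L - m) * (b : ℝ) ^ m := by
      rw [← pow_add]
      congr 1
      omega
    have h9 : (b : ℝ) ^ (L - m) * t * (κ * (MM1 a b L * (b : ℝ) ^ m)) ≤ κ * w * (κ * (MM1 a b L * (b : ℝ) ^ m)) := by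
      calc (b : ℝ) ^ (L - m) * t * (κ * (MM1 a b L * (b : ℝ) ^ m))
          = κ * ((b : ℝ) ^ L * MM1 a b L * t) := by rw [h8]; ring
        _ ≤ (a : ℝ) ^ m * Y := ht
        _ = κ * w * (κ * (MM1 a b L * (b : ℝ) ^ m)) := by rw [← hwe]; ring
    have h10 : 0 < κ * ((MM1 a b L : ℝ) * (b : ℝ) ^ m) := by positivity
    have h11 := le_of_mul_le_mul_right h9 h10
    refine h11.trans ?_
    exact mul_le_mul_of_nonneg_left hc1 hκ.le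
  · -- `κ² M₁ b^m t' ≤ 2 a^m Y`
    have h8 : κ ^ 2 * ((MM1 a b L : ℝ) * (b : ℝ) ^ m * (⌈w⌉₊ : ℝ)) ≤ κ ^ 2 * ((MM1 a b L : ℝ) * (b : ℝ) ^ m) * (w + 1) := by
      rw [← mul_assoc]
      exact mul_le_mul_of_nonneg_left hc2.le hD.le
    have h9 : κ ^ 2 * ((MM1 a b L : ℝ) * (b : ℝ) ^ m) ≤ (a : ℝ) ^ m * Y := by
      have h10 : (MM1 a b L : ℝ) * (b : ℝ) ^ m ≤ MM1 a b L * (b : ℝ) ^ L :=
        mul_le_mul_of_nonneg_left hbmL (by linarith)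
      have h11 : κ ^ 2 * ((MM1 a b L : ℝ) * (b : ℝ) ^ m) ≤ 1 * ((MM1 a b L : ℝ) * (b : ℝ) ^ m) :=
        mul_le_mul_of_nonneg_right hκ2 (by positivity)
      have h12 : (Y : ℝ) ≤ (a : ℝ) ^ m * Y := by nlinarith
      linarith
    have h13 : κ ^ 2 * ((MM1 a b L : ℝ) * (b : ℝ) ^ m) * (w + 1) =
        (a : ℝ) ^ m * Y + κ ^ 2 * ((MM1 a b L : ℝ) * (b : ℝ) ^ m) := by
      rw [← hwe]; ring
    linarith

theorem CU2_half (hUB2 : UB2_stmt) (hSD2 : SD2_stmt) (a b L : ℕ) (κ : ℝ) (ha : 1 ≤ a) (hL : 1 ≤ L) (hκ : 0 < κ)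
    (hκ1 : κ ≤ 1) (h : 64 * a * √(L : ℝ) ≤ κ ^ 2 * b) (Y : ℕ) (hY : MM1 a b L * b ^ L ≤ Y) (T : ℕ → ℕ)
    (hT : ∀ m ∈ Ico 1 L, 1 ≤ T m ∧ κ * ((b : ℝ) ^ L * MM1 a b L * T m) ≤ (a : ℝ) ^ m * Y)
    (B : ℕ → ℤ → ℝ) (hB : ∀ m v, 0 ≤ B m v ∧ B m v ≤ 1) (φ ψ : ℕ × ℕ → ℝ) (hφ : ∀ p, |φ p| ≤ 1) (hψ : ∀ p, |ψ p| ≤ 1) :
    |∑ p ∈ VV L Y, ∑ p' ∈ VV L Y, (if p'.1 < p.1 then (B (p.1 - p'.1) ((b : ℤ) ^ (p.1 - p'.1) * p.2 -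
      (a : ℤ) ^ (p.1 - p'.1) * p'.2) - PQ (b ^ L * MM1 a b L) T B (p.1 - p'.1) ((b : ℤ) ^ (p.1 - p'.1) * p.2 -
      (a : ℤ) ^ (p.1 - p'.1) * p'.2)) else 0) * φ p * ψ p'| ≤
      κ * (L : ℝ) ^ 2 * (Y : ℝ) ^ 2 + 21 * (L * √(L : ℝ)) * (Y : ℝ) ^ 2 := by
  classical
  obtain ⟨h64, h64'⟩ := CU2_num a b L κ hL hκ hκ1 h
  have hab : a < b := by omega
  have hM := CU2_MM1 a b L ha hab
  have hbY : b ^ L ≤ Y := by
    refine le_trans ?_ hY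
    exact Nat.le_mul_of_pos_left _ hM
  have hex : ∀ m : ℕ, ∃ t' : ℕ, m ∈ Ico 1 L → 1 ≤ t' ∧ MM1 a b L * t' ≤ Y ∧ (b : ℝ) ^ (L - m) * T m ≤ κ * t' ∧
      κ ^ 2 * (MM1 a b L * (b : ℝ) ^ m * t') ≤ 2 * ((a : ℝ) ^ m * Y) := by
    intro m
    by_cases hm : m ∈ Ico 1 L
    · obtain ⟨t', ht'⟩ := CU2_par a b L κ ha hL hκ hκ1 h Y hY m (T m) hm (hT m hm).2
      exact ⟨t', fun _ => ht'⟩
    · exact ⟨0, fun h => absurd h hm⟩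
  choose T' hT' using hex
  rw [CUT_conv a b L (3 * Y) Y (fun m v => B m v - PQ (b ^ L * MM1 a b L) T B m v) φ ψ]
  have e1 : ∀ m x y, gm L (CUT_ext Y φ) (CUT_ext Y ψ) m x y =
      gm L (fun i x => sm (MM1 a b L) (T' m) (CUT_ext Y φ i) x) (CUT_ext Y ψ) m x y +
      gm L (fun i x => CUT_ext Y φ i x - sm (MM1 a b L) (T' m) (CUT_ext Y φ i) x) (CUT_ext Y ψ) m x y := by
    intro m x y
    unfold gm
    rw [← Finset.sum_add_distrib]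
    apply Finset.sum_congr rfl
    intro i _
    ring
  have e2 : ∑ m ∈ Ico 1 L, ∑ x ∈ XX (3 * Y) Y, ∑ y ∈ XX (3 * Y) Y, (B m ((b : ℤ) ^ m * x - (a : ℤ) ^ m * y) -
      PQ (b ^ L * MM1 a b L) T B m ((b : ℤ) ^ m * x - (a : ℤ) ^ m * y)) * gm L (CUT_ext Y φ) (CUT_ext Y ψ) m x y =
      ∑ m ∈ Ico 1 L, ∑ x ∈ XX (3 * Y) Y, ∑ y ∈ XX (3 * Y) Y, (B m ((b : ℤ) ^ m * x - (a : ℤ) ^ m * y) -
      PQ (b ^ L * MM1 a b L) T B m ((b : ℤ) ^ m * x - (a : ℤ) ^ m * y)) *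
        gm L (fun i x => sm (MM1 a b L) (T' m) (CUT_ext Y φ i) x) (CUT_ext Y ψ) m x y +
      ∑ m ∈ Ico 1 L, ∑ x ∈ XX (3 * Y) Y, ∑ y ∈ XX (3 * Y) Y, (B m ((b : ℤ) ^ m * x - (a : ℤ) ^ m * y) -
      PQ (b ^ L * MM1 a b L) T B m ((b : ℤ) ^ m * x - (a : ℤ) ^ m * y)) *
        gm L (fun i x => CUT_ext Y φ i x - sm (MM1 a b L) (T' m) (CUT_ext Y φ i) x) (CUT_ext Y ψ) m x y := by
    rw [← Finset.sum_add_distrib]
    apply Finset.sum_congr rfl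
    intro m _
    rw [← Finset.sum_add_distrib]
    apply Finset.sum_congr rfl
    intro x _
    rw [← Finset.sum_add_distrib]
    apply Finset.sum_congr rfl
    intro y _
    rw [e1, mul_add]
  have e3 := hSD2 a b L Y κ ha (by omega) hL hκ hκ1 T T' (fun m hm => ⟨(hT m hm).1, (hT' m hm).1, (hT' m hm).2.1,
    (hT' m hm).2.2.1⟩) B (CUT_ext Y φ) (CUT_ext Y ψ) hB (CUT_ext_le Y φ hφ) (CUT_ext_le Y ψ hψ)
    (CUT_ext_sp Y φ) (CUT_ext_sp Y ψ)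
  have e4 := hUB2 a b L Y κ ha hL hκ hκ1 h hbY T' (fun m hm => ⟨(hT' m hm).1, (hT' m hm).2.1, (hT' m hm).2.2.2⟩)
    (fun m v => B m v - PQ (b ^ L * MM1 a b L) T B m v) (CUT_ext Y φ) (CUT_ext Y ψ) (by
    intro m v
    have g1 := hB m v
    have g2 := CU2_PQ (b ^ L * MM1 a b L) T B hB m v
    show |B m v - PQ (b ^ L * MM1 a b L) T B m v| ≤ 1
    rw [abs_le]
    constructor <;> linarith [g1.1, g1.2, g2.1, g2.2]) (CUT_ext_le Y φ hφ) (CUT_ext_le Y ψ hψ)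
    (CUT_ext_sp Y φ) (CUT_ext_sp Y ψ)
  show |∑ m ∈ Ico 1 L, ∑ x ∈ XX (3 * Y) Y, ∑ y ∈ XX (3 * Y) Y, (B m ((b : ℤ) ^ m * x - (a : ℤ) ^ m * y) -
      PQ (b ^ L * MM1 a b L) T B m ((b : ℤ) ^ m * x - (a : ℤ) ^ m * y)) * gm L (CUT_ext Y φ) (CUT_ext Y ψ) m x y| ≤ _
  rw [e2]
  exact (abs_add_le _ _).trans (add_le_add e3 e4)

theorem CU2 (hUB2 : UB2_stmt) (hSD2 : SD2_stmt) : CU2_stmt := by
  intro a b L κ ha hL hκ hκ1 h Y hY T hT B hB φ ψ hφ hψ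
  have g1 := CU2_half hUB2 hSD2 a b L κ ha hL hκ hκ1 h Y hY T hT B hB φ ψ hφ hψ
  have g2 := CU2_half hUB2 hSD2 a b L κ ha hL hκ hκ1 h Y hY T hT B hB ψ φ hψ hφ
  have e1 : ∑ p ∈ VV L Y, ∑ p' ∈ VV L Y, (kr a b B p p' - kr a b (PQ (b ^ L * MM1 a b L) T B) p p') * φ p * ψ p' =
      ∑ p ∈ VV L Y, ∑ p' ∈ VV L Y, (if p'.1 < p.1 then (B (p.1 - p'.1) ((b : ℤ) ^ (p.1 - p'.1) * p.2 -
      (a : ℤ) ^ (p.1 - p'.1) * p'.2) - PQ (b ^ L * MM1 a b L) T B (p.1 - p'.1) ((b : ℤ) ^ (p.1 - p'.1) * p.2 -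
      (a : ℤ) ^ (p.1 - p'.1) * p'.2)) else 0) * φ p * ψ p' +
      ∑ p ∈ VV L Y, ∑ p' ∈ VV L Y, (if p'.1 < p.1 then (B (p.1 - p'.1) ((b : ℤ) ^ (p.1 - p'.1) * p.2 -
      (a : ℤ) ^ (p.1 - p'.1) * p'.2) - PQ (b ^ L * MM1 a b L) T B (p.1 - p'.1) ((b : ℤ) ^ (p.1 - p'.1) * p.2 -
      (a : ℤ) ^ (p.1 - p'.1) * p'.2)) else 0) * ψ p * φ p' := by
    rw [Finset.sum_comm (s := VV L Y) (t := VV L Y) (f := fun p p' => (if p'.1 < p.1 then (B (p.1 - p'.1) ((b : ℤ) ^ (p.1 - p'.1) * p.2 -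
      (a : ℤ) ^ (p.1 - p'.1) * p'.2) - PQ (b ^ L * MM1 a b L) T B (p.1 - p'.1) ((b : ℤ) ^ (p.1 - p'.1) * p.2 -
      (a : ℤ) ^ (p.1 - p'.1) * p'.2)) else 0) * ψ p * φ p'), ← Finset.sum_add_distrib]
    apply Finset.sum_congr rfl
    intro p _
    rw [← Finset.sum_add_distrib]
    apply Finset.sum_congr rfl
    intro p' _
    unfold kr
    rcases lt_trichotomy p.1 p'.1 with h | h | h
    · rw [if_neg (by omega), if_pos h, if_neg (by omega), if_pos h, if_neg (by omega), if_pos h]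
      ring
    · rw [if_neg (by omega), if_neg (by omega), if_neg (by omega), if_neg (by omega), if_neg (by omega), if_neg (by omega)]
      ring
    · rw [if_pos h, if_pos h, if_pos h, if_neg (by omega)]
      ring
  have hL0 : (0 : ℝ) < L := by exact_mod_cast hL
  have hs0 : 0 < √(L : ℝ) := Real.sqrt_pos.2 hL0
  have hs2 : √(L : ℝ) * √(L : ℝ) = L := Real.mul_self_sqrt hL0.le
  have e2 : (L : ℝ) * √(L : ℝ) = (L : ℝ) ^ 2 / √(L : ℝ) := by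
    rw [eq_div_iff hs0.ne', mul_assoc, hs2]
    ring
  have e3 : (2 * κ + 42 / √(L : ℝ)) * ((L : ℝ) * Y) ^ 2 =
      2 * (κ * (L : ℝ) ^ 2 * (Y : ℝ) ^ 2 + 21 * (L * √(L : ℝ)) * (Y : ℝ) ^ 2) := by
    rw [e2]
    ring
  rw [e1, e3]
  refine (abs_add_le _ _).trans ?_
  linarith

end Pool.Agent.OP
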